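import Mathlib

/-! Lipschitz lemma for unitary representations (Step 1 of helper78's proof of the triviality of the
bicentralizer): abstract form, real Hilbert spaces. -/

set_option autoImplicit false

open scoped RealInnerProductSpace

namespace Helper11.BC

section Directed

variable {H : Type*} [NormedAddCommGroup H] [InnerProductSpace ℝ H] [CompleteSpace H]

/-- a decreasing net of nonempty closed convex bounded sets in a Hilbert space has a common point -/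
theorem exists_mem_all_of_antitone {ι : Type*} [SemilatticeSup ι] [Nonempty ι] (S : ι → Set H)
    (hanti : Antitone S) (hcl : ∀ i, IsClosed (S i)) (hco : ∀ i, Convex ℝ (S i))
    (hne : ∀ i, (S i).Nonempty) (R : ℝ) (hb : ∀ i, ∀ z ∈ S i, ‖z‖ ≤ R) : ∃ z, ∀ i, z ∈ S i := by
  have hmin : ∀ i, ∃ z ∈ S i, ∀ w ∈ S i, ‖z‖ ≤ ‖w‖ := by
    intro i
    obtain ⟨v, hv, hv2⟩ := exists_norm_eq_iInf_of_complete_convex (hne i) (hcl i).isComplete
      (hco i) (0 : H)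
    refine ⟨v, hv, fun w hw => ?_⟩
    have h1 : ⨅ w : S i, ‖(0 : H) - w‖ ≤ ‖(0 : H) - w‖ :=
      ciInf_le ⟨0, by rintro _ ⟨w, rfl⟩; exact norm_nonneg _⟩ (⟨w, hw⟩ : S i)
    rw [← hv2] at h1
    simpa using h1
  choose z hz hzmin using hmin
  have hRbd : ∀ i, ‖z i‖ ^ 2 ≤ R ^ 2 := fun i =>
    pow_le_pow_left₀ (norm_nonneg _) (hb i _ (hz i)) 2
  have hbdd : BddAbove (Set.range fun i => ‖z i‖ ^ 2) := ⟨R ^ 2, by rintro _ ⟨i, rfl⟩; exact hRbd i⟩
  have key : ∀ i j, i ≤ j → ‖z j - z i‖ ^ 2 ≤ 2 * (‖z j‖ ^ 2 - ‖z i‖ ^ 2) := by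
    intro i j hij
    have hmem : (1 / 2 : ℝ) • z j + (1 / 2 : ℝ) • z i ∈ S i :=
      hco i (hanti hij (hz j)) (hz i) (by norm_num) (by norm_num) (by norm_num)
    have h1 := hzmin i _ hmem
    have h2 : (1 / 2 : ℝ) • z j + (1 / 2 : ℝ) • z i = (1 / 2 : ℝ) • (z j + z i) := by
      rw [smul_add]
    rw [h2, norm_smul, Real.norm_eq_abs, abs_of_pos (by norm_num : (0 : ℝ) < 1 / 2)] at h1
    have h3 := parallelogram_law_with_norm ℝ (z j) (z i)
    have h4 : (2 * ‖z i‖) ^ 2 ≤ ‖z j + z i‖ ^ 2 :=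
      pow_le_pow_left₀ (by positivity) (by linarith) 2
    nlinarith [h3, h4]
  have hcauchy : CauchySeq z := by
    rw [Metric.cauchySeq_iff']
    intro ε hε
    obtain ⟨N, hN⟩ := exists_lt_of_lt_ciSup
      (show (⨆ i, ‖z i‖ ^ 2) - ε ^ 2 / 4 < ⨆ i, ‖z i‖ ^ 2 by
        have : 0 < ε ^ 2 := by positivity
        linarith)
    refine ⟨N, fun n hn => ?_⟩
    have h1 := key N n hn
    have h2 : ‖z n‖ ^ 2 ≤ ⨆ i, ‖z i‖ ^ 2 := le_ciSup hbdd n
    rw [dist_eq_norm]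
    have h3 : ‖z n - z N‖ ^ 2 < ε ^ 2 := by
      have : 0 < ε ^ 2 := by positivity
      linarith
    exact lt_of_pow_lt_pow_left₀ 2 hε.le h3
  obtain ⟨w, hw⟩ := cauchySeq_tendsto_of_complete hcauchy
  refine ⟨w, fun i => (hcl i).mem_of_tendsto hw ?_⟩
  filter_upwards [Filter.eventually_ge_atTop i] with n hn
  exact hanti hn (hz n)

end Directed

section Rep

variable {H : Type*} [NormedAddCommGroup H] [InnerProductSpace ℝ H]
variable {G : Type*} [Group G]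

/-- the convex hull of the representation -/
def hull (π : G →* (H →L[ℝ] H)) : Set (H →L[ℝ] H) := convexHull ℝ (Set.range π)

theorem pi_mem_hull (π : G →* (H →L[ℝ] H)) (g : G) : π g ∈ hull π :=
  subset_convexHull ℝ _ ⟨g, rfl⟩

theorem hull_mul_pi (π : G →* (H →L[ℝ] H)) (g : G) {X : H →L[ℝ] H} (hX : X ∈ hull π) :
    X * π g ∈ hull π := by
  have h : hull π ⊆ {Z | Z * π g ∈ hull π} := by
    refine convexHull_min ?_ ?_
    · rintro _ ⟨g', rfl⟩
      show π g' * π g ∈ hull π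
      rw [← map_mul]
      exact pi_mem_hull π _
    · intro x hx y hy a b ha hb hab
      show (a • x + b • y) * π g ∈ hull π
      rw [add_mul, smul_mul_assoc, smul_mul_assoc]
      exact convex_convexHull ℝ _ hx hy ha hb hab
  exact h hX

theorem hull_mul (π : G →* (H →L[ℝ] H)) {X Y : H →L[ℝ] H} (hX : X ∈ hull π)
    (hY : Y ∈ hull π) : X * Y ∈ hull π := by
  have h : hull π ⊆ {Z | X * Z ∈ hull π} := by
    refine convexHull_min ?_ ?_
    · rintro _ ⟨g', rfl⟩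
      exact hull_mul_pi π g' hX
    · intro x hx y hy a b ha hb hab
      show X * (a • x + b • y) ∈ hull π
      rw [mul_add, mul_smul_comm, mul_smul_comm]
      exact convex_convexHull ℝ _ hx hy ha hb hab
  exact h hY

theorem hull_pow (π : G →* (H →L[ℝ] H)) {X : H →L[ℝ] H} (hX : X ∈ hull π) (m : ℕ) :
    X ^ m ∈ hull π := by
  induction m with
  | zero =>
    rw [pow_zero, ← map_one π]
    exact pi_mem_hull π 1
  | succ m ih =>
    rw [pow_succ]
    exact hull_mul π ih hX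

theorem hull_norm (π : G →* (H →L[ℝ] H)) (hπ : ∀ g v, ‖π g v‖ = ‖v‖) {X : H →L[ℝ] H}
    (hX : X ∈ hull π) (v : H) : ‖X v‖ ≤ ‖v‖ := by
  have h : hull π ⊆ {Z | ‖Z v‖ ≤ ‖v‖} := by
    refine convexHull_min ?_ ?_
    · rintro _ ⟨g', rfl⟩
      exact (hπ g' v).le
    · intro x hx y hy a b ha hb hab
      show ‖(a • x + b • y) v‖ ≤ ‖v‖
      have h1 : (a • x + b • y) v = a • x v + b • y v := rfl
      rw [h1]
      calc ‖a • x v + b • y v‖ ≤ ‖a • x v‖ + ‖b • y v‖ := norm_add_le _ _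
        _ = a * ‖x v‖ + b * ‖y v‖ := by
          rw [norm_smul, norm_smul, Real.norm_eq_abs, Real.norm_eq_abs, abs_of_nonneg ha,
            abs_of_nonneg hb]
        _ ≤ a * ‖v‖ + b * ‖v‖ :=
          add_le_add (mul_le_mul_of_nonneg_left hx ha) (mul_le_mul_of_nonneg_left hy hb)
        _ = ‖v‖ := by rw [← add_mul, hab, one_mul]
  exact h hX

theorem hull_mem (π : G →* (H →L[ℝ] H)) {V : Set H} (hV : Convex ℝ V) {η : H}
    (hη : ∀ g, π g η ∈ V) {X : H →L[ℝ] H} (hX : X ∈ hull π) : X η ∈ V := by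
  have h : hull π ⊆ {Z | Z η ∈ V} := by
    refine convexHull_min ?_ ?_
    · rintro _ ⟨g', rfl⟩
      exact hη g'
    · intro x hx y hy a b ha hb hab
      exact hV hx hy ha hb hab
  exact h hX

theorem sq_norm_convex {x y : H} {a b : ℝ} (ha : 0 ≤ a) (hb : 0 ≤ b) (hab : a + b = 1) :
    ‖a • x + b • y‖ ^ 2 ≤ a * ‖x‖ ^ 2 + b * ‖y‖ ^ 2 := by
  have h1 : ‖a • x + b • y‖ ≤ a * ‖x‖ + b * ‖y‖ := by
    calc ‖a • x + b • y‖ ≤ ‖a • x‖ + ‖b • y‖ := norm_add_le _ _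
      _ = a * ‖x‖ + b * ‖y‖ := by
        rw [norm_smul, norm_smul, Real.norm_eq_abs, Real.norm_eq_abs, abs_of_nonneg ha,
          abs_of_nonneg hb]
  have h2 : ‖a • x + b • y‖ ^ 2 ≤ (a * ‖x‖ + b * ‖y‖) ^ 2 :=
    pow_le_pow_left₀ (norm_nonneg _) h1 2
  have hb' : b = 1 - a := by linarith
  have h3 : 0 ≤ a * b * (‖x‖ - ‖y‖) ^ 2 := by positivity
  subst hb'
  nlinarith [h2, h3]

theorem hull_est (π : G →* (H →L[ℝ] H)) (hπ : ∀ g v, ‖π g v‖ = ‖v‖) {ξ η : H} {ε C : ℝ}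
    (h : ∀ g, ‖π g η - η‖ ^ 2 ≤ ε + C * ‖π g ξ - ξ‖ ^ 2) {X : H →L[ℝ] H} (hX : X ∈ hull π) :
    ‖X η - η‖ ^ 2 ≤ ε + 2 * C * ⟪ξ - X ξ, ξ⟫ := by
  have h : hull π ⊆ {Z | ‖Z η - η‖ ^ 2 ≤ ε + 2 * C * ⟪ξ - Z ξ, ξ⟫} := by
    refine convexHull_min ?_ ?_
    · rintro _ ⟨g', rfl⟩
      show ‖π g' η - η‖ ^ 2 ≤ ε + 2 * C * ⟪ξ - π g' ξ, ξ⟫
      have h1 := h g'
      have h2 : ‖π g' ξ - ξ‖ ^ 2 = 2 * ⟪ξ - π g' ξ, ξ⟫ := by
        rw [@norm_sub_sq ℝ, hπ, inner_sub_left, real_inner_self_eq_norm_sq]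
        simp only [RCLike.re_to_real]
        ring
      rw [h2] at h1
      linarith
    · intro x hx y hy a b ha hb hab
      show ‖(a • x + b • y) η - η‖ ^ 2 ≤ ε + 2 * C * ⟪ξ - (a • x + b • y) ξ, ξ⟫
      have h1 : (a • x + b • y) η - η = a • (x η - η) + b • (y η - η) := by
        have : η = a • η + b • η := by rw [← add_smul, hab, one_smul]
        have h2 : (a • x + b • y) η = a • x η + b • y η := rfl
        rw [h2]
        nth_rewrite 3 [this]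
        rw [smul_sub, smul_sub]
        abel
      have h3 : ⟪ξ - (a • x + b • y) ξ, ξ⟫ = a * ⟪ξ - x ξ, ξ⟫ + b * ⟪ξ - y ξ, ξ⟫ := by
        have h2 : (a • x + b • y) ξ = a • x ξ + b • y ξ := rfl
        rw [h2, inner_sub_left, inner_add_left, real_inner_smul_left, real_inner_smul_left,
          inner_sub_left, inner_sub_left]
        have hb' : b = 1 - a := by linarith
        subst hb'
        ring
      rw [h1, h3]
      have hx' : ‖x η - η‖ ^ 2 ≤ ε + 2 * C * ⟪ξ - x ξ, ξ⟫ := hx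
      have hy' : ‖y η - η‖ ^ 2 ≤ ε + 2 * C * ⟪ξ - y ξ, ξ⟫ := hy
      have hb' : b = 1 - a := by linarith
      have h4 := sq_norm_convex (x := x η - η) (y := y η - η) ha hb hab
      have h5 := mul_le_mul_of_nonneg_left hx' ha
      have h6 := mul_le_mul_of_nonneg_left hy' hb
      subst hb'
      nlinarith [h4, h5, h6]
  exact h hX

theorem inner_pi (π : G →* (H →L[ℝ] H)) (hπ : ∀ g v, ‖π g v‖ = ‖v‖) (g : G) (u v : H) :
    ⟪π g u, v⟫ = ⟪u, π g⁻¹ v⟫ := by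
  have hpol : ∀ x y : H, ⟪π g x, π g y⟫ = ⟪x, y⟫ := by
    intro x y
    have h1 := @norm_add_sq_real H _ _ x y
    have h2 := @norm_add_sq_real H _ _ (π g x) (π g y)
    rw [← map_add, hπ, hπ, hπ] at h2
    linarith
  have h3 : π g (π g⁻¹ v) = v := by
    have h4 : (π g * π g⁻¹) v = v := by
      rw [← map_mul, mul_inv_cancel, map_one]
      rfl
    exact h4
  rw [← hpol u (π g⁻¹ v), h3]

end Rep

section Contraction

variable {H : Type*} [NormedAddCommGroup H] [InnerProductSpace ℝ H]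

theorem contraction_step (T : H →L[ℝ] H) (hsym : ∀ u v, ⟪T u, v⟫ = ⟪u, T v⟫)
    (hn : ∀ v, ‖T v‖ ≤ ‖v‖) (x : H) (k : ℕ) :
    ⟪(T ^ k) x - T ((T ^ k) x), (T ^ k) x⟫ ≤ ⟪x - T x, x⟫ := by
  induction k with
  | zero => simp
  | succ k ih =>
    refine le_trans ?_ ih
    have h1 : (T ^ (k + 1)) x = T ((T ^ k) x) := by
      rw [pow_succ']
      rfl
    rw [h1]
    set u := (T ^ k) x
    have h2 : ⟪u - T u, u⟫ - ⟪T u - T (T u), T u⟫ = ⟪u - T u, u - T u⟫ + ⟪T (u - T u), u - T u⟫ := by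
      have e2 : ⟪T u, T u⟫ = ⟪T (T u), u⟫ := by rw [hsym (T u) u]
      have e4 : ⟪u, T u⟫ = ⟪T u, u⟫ := by rw [hsym]
      simp only [map_sub, inner_sub_left, inner_sub_right]
      rw [e2, e4]
      ring
    have h3 : -(‖u - T u‖ * ‖u - T u‖) ≤ ⟪T (u - T u), u - T u⟫ := by
      have h4 := abs_real_inner_le_norm (T (u - T u)) (u - T u)
      have h5 := mul_le_mul_of_nonneg_right (hn (u - T u)) (norm_nonneg (u - T u))
      have h6 := neg_abs_le ⟪T (u - T u), u - T u⟫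
      linarith
    have h7 : ⟪u - T u, u - T u⟫ = ‖u - T u‖ * ‖u - T u‖ := real_inner_self_eq_norm_mul_norm _
    linarith

theorem contraction_tele (T : H →L[ℝ] H) (hsym : ∀ u v, ⟪T u, v⟫ = ⟪u, T v⟫)
    (hn : ∀ v, ‖T v‖ ≤ ‖v‖) (x : H) (k : ℕ) :
    ⟪(T ^ k) x - T ((T ^ k) x), x⟫ ≤ ⟪x - T x, x⟫ := by
  have h1 := contraction_step T hsym hn x k
  set u := (T ^ k) x
  have h2 : 0 ≤ ⟪(u - x) - T (u - x), u - x⟫ := by
    have h4 := abs_real_inner_le_norm (T (u - x)) (u - x)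
    have h5 := mul_le_mul_of_nonneg_right (hn (u - x)) (norm_nonneg (u - x))
    have h6 := le_abs_self ⟪T (u - x), u - x⟫
    have h7 : ⟪u - x, u - x⟫ = ‖u - x‖ * ‖u - x‖ := real_inner_self_eq_norm_mul_norm _
    rw [inner_sub_left]
    linarith
  have e1 : ⟪x - T x, u⟫ = ⟪u - T u, x⟫ := by
    rw [inner_sub_left, inner_sub_left, hsym, real_inner_comm, real_inner_comm (T u) x]
  have h3 : ⟪(u - x) - T (u - x), u - x⟫ =
      ⟪u - T u, u⟫ - ⟪u - T u, x⟫ - ⟪x - T x, u⟫ + ⟪x - T x, x⟫ := by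
    simp only [map_sub, inner_sub_left, inner_sub_right]
    ring
  rw [h3, e1] at h2
  linarith

theorem contraction_pow (T : H →L[ℝ] H) (hsym : ∀ u v, ⟪T u, v⟫ = ⟪u, T v⟫)
    (hn : ∀ v, ‖T v‖ ≤ ‖v‖) (x : H) (m : ℕ) :
    ⟪x - (T ^ m) x, x⟫ ≤ m * ⟪x - T x, x⟫ := by
  induction m with
  | zero => simp
  | succ m ih =>
    have h1 := contraction_tele T hsym hn x m
    have h2 : (T ^ (m + 1)) x = T ((T ^ m) x) := by
      rw [pow_succ']
      rfl
    have h3 : x - (T ^ (m + 1)) x = (x - (T ^ m) x) + ((T ^ m) x - T ((T ^ m) x)) := by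
      rw [h2]
      abel
    rw [h3, inner_add_left, Nat.cast_succ]
    linarith

end Contraction

section Mean

variable {H : Type*} [NormedAddCommGroup H] [InnerProductSpace ℝ H]
variable {G : Type*} [Group G]

/-- the symmetrised mean of the representation -/
noncomputable def meanOp (π : G →* (H →L[ℝ] H)) (s : Finset G) (μ : G → ℝ) : H →L[ℝ] H :=
  ∑ g ∈ s, μ g • ((1 / 2 : ℝ) • (π g + π g⁻¹))

theorem meanOp_mem (π : G →* (H →L[ℝ] H)) {s : Finset G} {μ : G → ℝ} (hμ : ∀ g ∈ s, 0 ≤ μ g)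
    (h1 : ∑ g ∈ s, μ g = 1) : meanOp π s μ ∈ hull π := by
  refine (convex_convexHull ℝ _).sum_mem hμ h1 (fun g _ => ?_)
  rw [smul_add]
  exact convex_convexHull ℝ _ (pi_mem_hull π g) (pi_mem_hull π g⁻¹) (by norm_num) (by norm_num)
    (by norm_num)

theorem meanOp_apply (π : G →* (H →L[ℝ] H)) (s : Finset G) (μ : G → ℝ) (v : H) :
    meanOp π s μ v = ∑ g ∈ s, μ g • ((1 / 2 : ℝ) • (π g v + π g⁻¹ v)) := by
  unfold meanOp
  rw [sum_apply]
  rfl

theorem meanOp_sym (π : G →* (H →L[ℝ] H)) (hπ : ∀ g v, ‖π g v‖ = ‖v‖) (s : Finset G) (μ : G → ℝ)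
    (u v : H) : ⟪meanOp π s μ u, v⟫ = ⟪u, meanOp π s μ v⟫ := by
  rw [meanOp_apply, meanOp_apply, sum_inner, inner_sum]
  refine Finset.sum_congr rfl fun g _ => ?_
  rw [real_inner_smul_left, real_inner_smul_left, real_inner_smul_right, real_inner_smul_right,
    inner_add_left, inner_add_right, inner_pi π hπ g, inner_pi π hπ g⁻¹, inv_inv]
  ring

theorem energy_eq (π : G →* (H →L[ℝ] H)) (hπ : ∀ g v, ‖π g v‖ = ‖v‖) {s : Finset G} {μ : G → ℝ}
    (h1 : ∑ g ∈ s, μ g = 1) (v : H) :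
    ∑ g ∈ s, μ g * ‖π g v - v‖ ^ 2 = 2 * ⟪v - meanOp π s μ v, v⟫ := by
  have h2 : ⟪v, v⟫ = ∑ g ∈ s, μ g * ⟪v, v⟫ := by rw [← Finset.sum_mul, h1, one_mul]
  rw [inner_sub_left, meanOp_apply, sum_inner, h2, ← Finset.sum_sub_distrib, Finset.mul_sum]
  refine Finset.sum_congr rfl fun g _ => ?_
  have h3 : ⟪π g⁻¹ v, v⟫ = ⟪π g v, v⟫ := by
    rw [inner_pi π hπ g⁻¹, inv_inv, real_inner_comm]
  have h4 : ‖π g v - v‖ ^ 2 = 2 * ⟪v, v⟫ - 2 * ⟪π g v, v⟫ := by
    rw [@norm_sub_sq ℝ, hπ, real_inner_self_eq_norm_sq]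
    simp only [RCLike.re_to_real]
    ring
  rw [real_inner_smul_left, real_inner_smul_left, inner_add_left, h3, h4]
  ring

/-- the case of a finite measure -/
theorem exists_mean (π : G →* (H →L[ℝ] H)) (hπ : ∀ g v, ‖π g v‖ = ‖v‖) {ξ η : H} {r C : ℝ}
    (hr : 0 < r) (hC : 0 < C)
    (h : ∀ g, ‖π g η - η‖ ^ 2 ≤ r ^ 2 / 2 + C * ‖π g ξ - ξ‖ ^ 2) {s : Finset G} {μ : G → ℝ}
    (hμ : ∀ g ∈ s, 0 ≤ μ g) (h1 : ∑ g ∈ s, μ g = 1) {δ : ℝ} (hδ : 0 < δ) :
    ∃ X ∈ hull π, ‖X η - η‖ ≤ r ∧ ∑ g ∈ s, μ g * ‖π g (X η) - X η‖ ^ 2 ≤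
      (16 * C * ‖η‖ ^ 2 / r ^ 2) * ∑ g ∈ s, μ g * ‖π g ξ - ξ‖ ^ 2 + δ := by
  set T := meanOp π s μ with hT
  have hTm : T ∈ hull π := meanOp_mem π hμ h1
  have hsym : ∀ u v, ⟪T u, v⟫ = ⟪u, T v⟫ := meanOp_sym π hπ s μ
  have hTn : ∀ v, ‖T v‖ ≤ ‖v‖ := hull_norm π hπ hTm
  set E := ∑ g ∈ s, μ g * ‖π g ξ - ξ‖ ^ 2 with hE
  have hE0 : 0 ≤ E := Finset.sum_nonneg fun g hg => mul_nonneg (hμ g hg) (by positivity)
  have hEeq : E = 2 * ⟪ξ - T ξ, ξ⟫ := energy_eq π hπ h1 ξ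
  set K := 16 * C * ‖η‖ ^ 2 / r ^ 2 with hK
  have hK0 : 0 ≤ K := by positivity
  have hr2 : 0 < r ^ 2 := by positivity
  by_cases hcase : r ^ 2 / (2 * C) < E
  · refine ⟨1, ?_, ?_, ?_⟩
    · rw [← map_one π]
      exact pi_mem_hull π 1
    · show ‖η - η‖ ≤ r
      rw [sub_self, norm_zero]
      exact hr.le
    · show ∑ g ∈ s, μ g * ‖π g η - η‖ ^ 2 ≤ K * E + δ
      rw [energy_eq π hπ h1 η]
      have h2 : ⟪η - T η, η⟫ ≤ 2 * ‖η‖ * ‖η‖ := by
        refine (real_inner_le_norm _ _).trans (mul_le_mul_of_nonneg_right ?_ (norm_nonneg _))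
        calc ‖η - T η‖ ≤ ‖η‖ + ‖T η‖ := norm_sub_le _ _
          _ ≤ 2 * ‖η‖ := by linarith [hTn η]
      have h3 : 4 * ‖η‖ ^ 2 ≤ K * E := by
        have h4 : K * (r ^ 2 / (2 * C)) ≤ K * E := mul_le_mul_of_nonneg_left hcase.le hK0
        have h5 : K * (r ^ 2 / (2 * C)) = 8 * ‖η‖ ^ 2 := by
          rw [hK]
          field_simp
          ring
        nlinarith [sq_nonneg ‖η‖]
      rw [← hT]
      nlinarith
  · push Not at hcase
    -- choice of n
    obtain ⟨n, hn1, hn2, hn3⟩ : ∃ n : ℕ, 1 ≤ n ∧ n * E ≤ r ^ 2 / (2 * C) ∧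
        4 * ‖η‖ ^ 2 / n ≤ K * E + δ := by
      rcases hE0.eq_or_lt with h0 | h0
      · obtain ⟨n, hn⟩ := exists_nat_gt (4 * ‖η‖ ^ 2 / δ)
        refine ⟨n + 1, by omega, ?_, ?_⟩
        · rw [← h0, mul_zero]
          positivity
        · rw [← h0, mul_zero, zero_add, div_le_iff₀ (by positivity)]
          rw [div_lt_iff₀ hδ] at hn
          push_cast
          nlinarith
      · have hge : 1 ≤ r ^ 2 / (2 * C) / E := by
          rw [le_div_iff₀ h0, one_mul]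
          exact hcase
        have hfl := Nat.floor_le (show (0 : ℝ) ≤ r ^ 2 / (2 * C) / E by linarith)
        have hfl2 := Nat.lt_floor_add_one (r ^ 2 / (2 * C) / E)
        have hfl3 : 1 ≤ ⌊r ^ 2 / (2 * C) / E⌋₊ := by
          rw [Nat.one_le_floor_iff]
          exact hge
        set n := ⌊r ^ 2 / (2 * C) / E⌋₊
        refine ⟨n, hfl3, ?_, ?_⟩
        · rwa [le_div_iff₀ h0] at hfl
        · have hn1 : (1 : ℝ) ≤ n := by exact_mod_cast hfl3
          have h5 : r ^ 2 / (2 * C) / E ≤ 2 * n := by linarith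
          rw [div_le_iff₀ h0] at h5
          rw [div_le_iff₀ (by linarith)]
          have h6 : K * (r ^ 2 / (2 * C)) = 8 * ‖η‖ ^ 2 := by
            rw [hK]
            field_simp
            ring
          have h7 : K * (r ^ 2 / (2 * C)) ≤ K * (2 * n * E) := mul_le_mul_of_nonneg_left h5 hK0
          have h8 : 0 ≤ δ * n := by positivity
          nlinarith
    have hn0 : (0 : ℝ) < n := by exact_mod_cast hn1
    set X : H →L[ℝ] H := ∑ m ∈ Finset.range n, (1 / n : ℝ) • T ^ m with hX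
    have hXm : X ∈ hull π := by
      refine (convex_convexHull ℝ _).sum_mem (fun _ _ => by positivity) ?_
        (fun m _ => hull_pow π hTm m)
      rw [Finset.sum_const, Finset.card_range, nsmul_eq_mul]
      field_simp
    have hXa : ∀ v, X v = ∑ m ∈ Finset.range n, (1 / n : ℝ) • (T ^ m) v := by
      intro v
      rw [hX, sum_apply]
      rfl
    refine ⟨X, hXm, ?_, ?_⟩
    · have h2 := hull_est π hπ h hXm
      have h3 : ⟪ξ - X ξ, ξ⟫ ≤ n * ⟪ξ - T ξ, ξ⟫ := by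
        have h4 : ⟪ξ - X ξ, ξ⟫ = ∑ m ∈ Finset.range n, (1 / n : ℝ) * ⟪ξ - (T ^ m) ξ, ξ⟫ := by
          rw [inner_sub_left, hXa, sum_inner]
          have h5 : ⟪ξ, ξ⟫ = ∑ m ∈ Finset.range n, (1 / n : ℝ) * ⟪ξ, ξ⟫ := by
            rw [Finset.sum_const, Finset.card_range, nsmul_eq_mul]
            field_simp
          rw [h5, ← Finset.sum_sub_distrib]
          refine Finset.sum_congr rfl fun m _ => ?_
          rw [real_inner_smul_left, inner_sub_left]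
          ring
        rw [h4]
        have hpos : 0 ≤ ⟪ξ - T ξ, ξ⟫ := by
          have := hEeq ▸ hE0
          linarith
        calc ∑ m ∈ Finset.range n, (1 / n : ℝ) * ⟪ξ - (T ^ m) ξ, ξ⟫
            ≤ ∑ m ∈ Finset.range n, (1 / n : ℝ) * (n * ⟪ξ - T ξ, ξ⟫) := by
              refine Finset.sum_le_sum fun m hm => ?_
              refine mul_le_mul_of_nonneg_left ?_ (by positivity)
              refine (contraction_pow T hsym hTn ξ m).trans ?_
              refine mul_le_mul_of_nonneg_right ?_ hpos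
              exact_mod_cast (Finset.mem_range.mp hm).le
          _ = n * ⟪ξ - T ξ, ξ⟫ := by
              rw [Finset.sum_const, Finset.card_range, nsmul_eq_mul]
              field_simp
      have h4 : ‖X η - η‖ ^ 2 ≤ r ^ 2 := by
        have h5 : 2 * C * ⟪ξ - X ξ, ξ⟫ ≤ 2 * C * (n * ⟪ξ - T ξ, ξ⟫) :=
          mul_le_mul_of_nonneg_left h3 (by positivity)
        have h6 : C * (n * E) ≤ C * (r ^ 2 / (2 * C)) := mul_le_mul_of_nonneg_left hn2 hC.le
        have h7 : C * (r ^ 2 / (2 * C)) = r ^ 2 / 2 := by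
          field_simp
        have h8 : 2 * C * (n * ⟪ξ - T ξ, ξ⟫) = C * (n * E) := by
          rw [hEeq]
          ring
        linarith
      exact le_of_sq_le_sq h4 hr.le
    · rw [energy_eq π hπ h1 (X η)]
      refine le_trans ?_ hn3
      have h2 : X η - T (X η) = (1 / n : ℝ) • (η - (T ^ n) η) := by
        rw [hXa, map_sum]
        have h3 : ∀ m, T ((1 / n : ℝ) • (T ^ m) η) = (1 / n : ℝ) • (T ^ (m + 1)) η := by
          intro m
          rw [map_smul, pow_succ']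
          rfl
        rw [Finset.sum_congr rfl (fun m _ => h3 m), ← Finset.sum_sub_distrib]
        have h4 := Finset.sum_range_sub' (fun m => (1 / n : ℝ) • (T ^ m) η) n
        rw [h4, pow_zero, ← smul_sub]
        rfl
      have h5 : ‖X η - T (X η)‖ ≤ (1 / n) * (2 * ‖η‖) := by
        rw [h2, norm_smul, Real.norm_eq_abs, abs_of_nonneg (by positivity)]
        refine mul_le_mul_of_nonneg_left ?_ (by positivity)
        calc ‖η - (T ^ n) η‖ ≤ ‖η‖ + ‖(T ^ n) η‖ := norm_sub_le _ _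
          _ ≤ 2 * ‖η‖ := by linarith [hull_norm π hπ (hull_pow π hTm n) η]
      have h6 : ⟪X η - T (X η), X η⟫ ≤ (1 / n) * (2 * ‖η‖) * ‖η‖ := by
        refine (real_inner_le_norm _ _).trans ?_
        exact mul_le_mul h5 (hull_norm π hπ hXm η) (norm_nonneg _) (by positivity)
      calc 2 * ⟪X η - T (X η), X η⟫ ≤ 2 * ((1 / n) * (2 * ‖η‖) * ‖η‖) := by linarith
        _ = 4 * ‖η‖ ^ 2 / n := by ring

end Mean

section Minimax

variable {H : Type*} [NormedAddCommGroup H] [InnerProductSpace ℝ H]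
variable {G : Type*} [Group G]

theorem defect_convex (π : G →* (H →L[ℝ] H)) (g : G) {x y : H} {a b : ℝ} (ha : 0 ≤ a)
    (hb : 0 ≤ b) (hab : a + b = 1) :
    ‖π g (a • x + b • y) - (a • x + b • y)‖ ^ 2 ≤
      a * ‖π g x - x‖ ^ 2 + b * ‖π g y - y‖ ^ 2 := by
  have h1 : π g (a • x + b • y) - (a • x + b • y) = a • (π g x - x) + b • (π g y - y) := by
    rw [map_add, map_smul, map_smul, smul_sub, smul_sub]
    abel
  rw [h1]
  exact sq_norm_convex ha hb hab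

/-- minimax: finitely many group elements at once -/
theorem exists_finite (π : G →* (H →L[ℝ] H)) (hπ : ∀ g v, ‖π g v‖ = ‖v‖) {ξ η : H} {r C : ℝ}
    (hr : 0 < r) (hC : 0 < C)
    (h : ∀ g, ‖π g η - η‖ ^ 2 ≤ r ^ 2 / 2 + C * ‖π g ξ - ξ‖ ^ 2) {V : Set H} (hV : Convex ℝ V)
    (hηV : ∀ g, π g η ∈ V) (F : Finset G) {δ : ℝ} (hδ : 0 < δ) :
    ∃ ζ ∈ V, ‖ζ - η‖ ≤ r ∧ ∀ g ∈ F, ‖π g ζ - ζ‖ ^ 2 ≤
      (16 * C * ‖η‖ ^ 2 / r ^ 2) * ‖π g ξ - ξ‖ ^ 2 + δ := by
  classical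
  set K := 16 * C * ‖η‖ ^ 2 / r ^ 2 with hK
  by_contra hcon
  push Not at hcon
  have hη : η ∈ V := by
    have := hηV 1
    rwa [map_one] at this
  let D : F → H → ℝ := fun g ζ => ‖π g ζ - ζ‖ ^ 2 - K * ‖π g ξ - ξ‖ ^ 2
  let A : Set (F → ℝ) := {a | ∃ ζ ∈ V, ‖ζ - η‖ ≤ r ∧ ∀ g : F, D g ζ < a g}
  have hAo : IsOpen A := by
    have : A = ⋃ ζ ∈ {ζ | ζ ∈ V ∧ ‖ζ - η‖ ≤ r}, ⋂ g : F, {a | D g ζ < a g} := by
      ext a
      simp only [A, Set.mem_ofPred_eq, Set.mem_iUnion, Set.mem_iInter, exists_prop, and_assoc]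
    rw [this]
    refine isOpen_biUnion fun ζ _ => isOpen_iInter_of_finite fun g => ?_
    exact isOpen_lt continuous_const (continuous_apply g)
  have hAc : Convex ℝ A := by
    rintro a ⟨x, hxV, hxr, hx⟩ b ⟨y, hyV, hyr, hy⟩ s t hs ht hst
    refine ⟨s • x + t • y, hV hxV hyV hs ht hst, ?_, fun g => ?_⟩
    · have h1 : s • x + t • y - η = s • (x - η) + t • (y - η) := by
        have h2 : η = s • η + t • η := by rw [← add_smul, hst, one_smul]
        nth_rewrite 1 [h2]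
        rw [smul_sub, smul_sub]
        abel
      rw [h1]
      calc ‖s • (x - η) + t • (y - η)‖ ≤ ‖s • (x - η)‖ + ‖t • (y - η)‖ := norm_add_le _ _
        _ = s * ‖x - η‖ + t * ‖y - η‖ := by
          rw [norm_smul, norm_smul, Real.norm_eq_abs, Real.norm_eq_abs, abs_of_nonneg hs,
            abs_of_nonneg ht]
        _ ≤ s * r + t * r :=
          add_le_add (mul_le_mul_of_nonneg_left hxr hs) (mul_le_mul_of_nonneg_left hyr ht)
        _ = r := by rw [← add_mul, hst, one_mul]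
    · have h1 := defect_convex π (g : G) (x := x) (y := y) hs ht hst
      have h2 := hx g
      have h3 := hy g
      show ‖π g (s • x + t • y) - (s • x + t • y)‖ ^ 2 - K * ‖π g ξ - ξ‖ ^ 2 <
        s * a g + t * b g
      have h2' : ‖π g x - x‖ ^ 2 - K * ‖π g ξ - ξ‖ ^ 2 < a g := h2
      have h3' : ‖π g y - y‖ ^ 2 - K * ‖π g ξ - ξ‖ ^ 2 < b g := h3
      have ht' : t = 1 - s := by linarith
      rcases hs.eq_or_lt with h0 | h0
      · rw [← h0] at h1 ht' ⊢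
        rw [sub_zero] at ht'
        rw [ht'] at h1 ⊢
        linarith
      · have h4 := mul_lt_mul_of_pos_left h2' h0
        have h5 := mul_le_mul_of_nonneg_left h3'.le ht
        rw [ht'] at h1 h5 ⊢
        nlinarith
  have hx : (fun _ : F => δ) ∉ A := by
    rintro ⟨ζ, hζV, hζr, hζ⟩
    obtain ⟨g, hg, hg2⟩ := hcon ζ hζV hζr
    have := hζ ⟨g, hg⟩
    have h2 : ‖π g ζ - ζ‖ ^ 2 - K * ‖π g ξ - ξ‖ ^ 2 < δ := this
    linarith
  obtain ⟨f, hf⟩ := geometric_hahn_banach_open_point hAc hAo hx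
  let c : F → ℝ := fun g => -f (Pi.single g 1)
  have hfc : ∀ a : F → ℝ, f a = -∑ g, a g * c g := by
    intro a
    have h1 : a = ∑ g, a g • (Pi.single g (1 : ℝ) : F → ℝ) := by
      ext j
      simp [Finset.sum_apply, Pi.single_apply]
    conv_lhs => rw [h1]
    rw [map_sum, ← Finset.sum_neg_distrib]
    refine Finset.sum_congr rfl fun g _ => ?_
    rw [map_smul, smul_eq_mul]
    show a g * f (Pi.single g 1) = -(a g * -f (Pi.single g 1))
    ring
  have hηA : (fun g : F => D g η + 1) ∈ A := ⟨η, hη, by rw [sub_self, norm_zero]; exact hr.le,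
    fun g => by show D g η < D g η + 1; linarith⟩
  have hc : ∀ g, 0 ≤ c g := by
    intro g
    by_contra hneg
    push Not at hneg
    set a : F → ℝ := fun g : F => D g η + 1 with ha
    have hup : ∀ t : ℝ, 0 ≤ t → a + t • (Pi.single g (1 : ℝ) : F → ℝ) ∈ A := by
      intro t ht
      refine ⟨η, hη, by rw [sub_self, norm_zero]; exact hr.le, fun j => ?_⟩
      show D j η < D j η + 1 + t * (Pi.single g (1 : ℝ) : F → ℝ) j
      have : 0 ≤ (Pi.single g (1 : ℝ) : F → ℝ) j := by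
        rw [Pi.single_apply]
        split_ifs <;> norm_num
      have := mul_nonneg ht this
      linarith
    have hfs : f (Pi.single g (1 : ℝ)) = -c g := by
      show _ = - -f (Pi.single g 1)
      ring
    have h1 : ∀ t : ℝ, 0 ≤ t → f a + t * (-c g) < f (fun _ : F => δ) := by
      intro t ht
      have := hf _ (hup t ht)
      rw [map_add, map_smul, smul_eq_mul, hfs] at this
      exact this
    have h2 := h1 ((f (fun _ : F => δ) - f a) / (-c g)) (by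
      have h3 := h1 0 le_rfl
      rw [zero_mul, add_zero] at h3
      exact div_nonneg (by linarith) (by linarith))
    rw [div_mul_cancel₀ _ (by linarith)] at h2
    linarith
  have hcs : 0 < ∑ g, c g := by
    rcases (Finset.sum_nonneg fun g (_ : g ∈ Finset.univ) => hc g).eq_or_lt with h0 | h0
    · exfalso
      have hz : ∀ g, c g = 0 := fun g =>
        (Finset.sum_eq_zero_iff_of_nonneg fun g _ => hc g).mp h0.symm g (Finset.mem_univ g)
      have h1 := hf _ hηA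
      rw [hfc, hfc] at h1
      simp only [hz, mul_zero, Finset.sum_const_zero, neg_zero, lt_self_iff_false] at h1
    · exact h0
  -- the probability
  let μ : G → ℝ := fun g => if hg : g ∈ F then c ⟨g, hg⟩ / ∑ g, c g else 0
  have hμs : ∀ φ : G → ℝ, ∑ g ∈ F, μ g * φ g = (∑ g : F, c g * φ g) / ∑ g, c g := by
    intro φ
    rw [← Finset.sum_coe_sort F, Finset.sum_div]
    refine Finset.sum_congr rfl fun g _ => ?_
    show (if hg : (g : G) ∈ F then c ⟨g, hg⟩ / ∑ g, c g else 0) * φ g = _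
    rw [dif_pos g.2]
    ring
  have hμ0 : ∀ g ∈ F, 0 ≤ μ g := by
    intro g hg
    show 0 ≤ (if hg : g ∈ F then c ⟨g, hg⟩ / ∑ g, c g else 0)
    rw [dif_pos hg]
    exact div_nonneg (hc _) hcs.le
  have hμ1 : ∑ g ∈ F, μ g = 1 := by
    have h1 := hμs (fun _ => 1)
    simp only [mul_one] at h1
    rw [h1, div_self hcs.ne']
  obtain ⟨X, hX, hXr, hXe⟩ := exists_mean π hπ hr hC h hμ0 hμ1 (δ := δ / 2) (by linarith)
  have hXV : X η ∈ V := hull_mem π hV hηV hX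
  have hXA : (fun g : F => D g (X η) + δ / 2) ∈ A :=
    ⟨X η, hXV, hXr, fun g => by show D g (X η) < D g (X η) + δ / 2; linarith⟩
  have h1 := hf _ hXA
  rw [hfc, hfc] at h1
  have h2 : ∑ g : F, (D g (X η) + δ / 2) * c g =
      ∑ g : F, c g * ‖π g (X η) - X η‖ ^ 2 - K * ∑ g : F, c g * ‖π g ξ - ξ‖ ^ 2 +
        δ / 2 * ∑ g, c g := by
    rw [Finset.mul_sum, Finset.mul_sum, ← Finset.sum_sub_distrib, ← Finset.sum_add_distrib]
    refine Finset.sum_congr rfl fun g _ => ?_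
    show (‖π g (X η) - X η‖ ^ 2 - K * ‖π g ξ - ξ‖ ^ 2 + δ / 2) * c g = _
    ring
  have h3 : ∑ g : F, δ * c g = δ * ∑ g, c g := by rw [Finset.mul_sum]
  rw [h2, h3] at h1
  rw [hμs (fun g => ‖π g (X η) - X η‖ ^ 2), hμs (fun g => ‖π g ξ - ξ‖ ^ 2)] at hXe
  rw [div_le_iff₀ hcs] at hXe
  have h4 : (K * ((∑ g : F, c g * ‖π g ξ - ξ‖ ^ 2) / ∑ g, c g) + δ / 2) * ∑ g, c g =
      K * (∑ g : F, c g * ‖π g ξ - ξ‖ ^ 2) + δ / 2 * ∑ g, c g := by
    field_simp
  rw [h4] at hXe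
  linarith

end Minimax

section Final

variable {H : Type*} [NormedAddCommGroup H] [InnerProductSpace ℝ H] [CompleteSpace H]
variable {G : Type*} [Group G]

/-- THE LIPSCHITZ LEMMA, real form. -/
theorem lipschitz_real (π : G →* (H →L[ℝ] H)) (hπ : ∀ g v, ‖π g v‖ = ‖v‖) {ξ η : H} {r C : ℝ}
    (hr : 0 < r) (hC : 0 < C)
    (h : ∀ g, ‖π g η - η‖ ^ 2 ≤ r ^ 2 / 2 + C * ‖π g ξ - ξ‖ ^ 2) {V : Set H} (hV : Convex ℝ V)
    (hVc : IsClosed V) (hηV : ∀ g, π g η ∈ V) :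
    ∃ ζ ∈ V, ‖ζ - η‖ ≤ r ∧ ∃ K : ℝ, 0 ≤ K ∧ ∀ g, ‖π g ζ - ζ‖ ≤ K * ‖π g ξ - ξ‖ := by
  classical
  set K := 16 * C * ‖η‖ ^ 2 / r ^ 2 with hK
  have hK0 : 0 ≤ K := by positivity
  let S : Finset G × ℕ → Set H := fun p => {ζ | ζ ∈ V ∧ ‖ζ - η‖ ≤ r ∧ ∀ g ∈ p.1,
    ‖π g ζ - ζ‖ ^ 2 ≤ K * ‖π g ξ - ξ‖ ^ 2 + 1 / ((p.2 : ℝ) + 1)}
  have hex : ∃ ζ, ∀ p, ζ ∈ S p := by
    refine exists_mem_all_of_antitone S ?_ ?_ ?_ ?_ (‖η‖ + r) ?_
    · rintro ⟨F, n⟩ ⟨F', n'⟩ ⟨hF, hn⟩ ζ ⟨h1, h2, h3⟩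
      refine ⟨h1, h2, fun g hg => (h3 g (hF hg)).trans ?_⟩
      have h4 : (n : ℝ) ≤ n' := by exact_mod_cast hn
      have h5 : (1 : ℝ) / ((n' : ℝ) + 1) ≤ 1 / ((n : ℝ) + 1) :=
        one_div_le_one_div_of_le (by positivity) (by linarith)
      show K * ‖π g ξ - ξ‖ ^ 2 + 1 / ((n' : ℝ) + 1) ≤ K * ‖π g ξ - ξ‖ ^ 2 + 1 / ((n : ℝ) + 1)
      linarith
    · rintro ⟨F, n⟩
      have : S (F, n) = V ∩ ({ζ | ‖ζ - η‖ ≤ r} ∩ ⋂ g ∈ F,
          {ζ | ‖π g ζ - ζ‖ ^ 2 ≤ K * ‖π g ξ - ξ‖ ^ 2 + 1 / ((n : ℝ) + 1)}) := by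
        ext ζ
        simp only [S, Set.mem_ofPred_eq, Set.mem_inter_iff, Set.mem_iInter]
      rw [this]
      refine hVc.inter (IsClosed.inter ?_ ?_)
      · exact isClosed_le (by fun_prop) continuous_const
      · refine isClosed_biInter fun g _ => ?_
        exact isClosed_le (by fun_prop) continuous_const
    · rintro ⟨F, n⟩ x ⟨hx1, hx2, hx3⟩ y ⟨hy1, hy2, hy3⟩ s t hs ht hst
      refine ⟨hV hx1 hy1 hs ht hst, ?_, fun g hg => ?_⟩
      · have h1 : s • x + t • y - η = s • (x - η) + t • (y - η) := by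
          have h2 : η = s • η + t • η := by rw [← add_smul, hst, one_smul]
          nth_rewrite 1 [h2]
          rw [smul_sub, smul_sub]
          abel
        rw [h1]
        calc ‖s • (x - η) + t • (y - η)‖ ≤ ‖s • (x - η)‖ + ‖t • (y - η)‖ := norm_add_le _ _
          _ = s * ‖x - η‖ + t * ‖y - η‖ := by
            rw [norm_smul, norm_smul, Real.norm_eq_abs, Real.norm_eq_abs, abs_of_nonneg hs,
              abs_of_nonneg ht]
          _ ≤ s * r + t * r :=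
            add_le_add (mul_le_mul_of_nonneg_left hx2 hs) (mul_le_mul_of_nonneg_left hy2 ht)
          _ = r := by rw [← add_mul, hst, one_mul]
      · have h1 := defect_convex π g (x := x) (y := y) hs ht hst
        have h2 := mul_le_mul_of_nonneg_left (hx3 g hg) hs
        have h3 := mul_le_mul_of_nonneg_left (hy3 g hg) ht
        have ht' : t = 1 - s := by linarith
        have h4 : s * (K * ‖π g ξ - ξ‖ ^ 2 + 1 / ((n : ℝ) + 1)) +
            t * (K * ‖π g ξ - ξ‖ ^ 2 + 1 / ((n : ℝ) + 1)) =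
            K * ‖π g ξ - ξ‖ ^ 2 + 1 / ((n : ℝ) + 1) := by
          rw [← add_mul, hst, one_mul]
        rw [← h4]
        exact h1.trans (add_le_add h2 h3)
    · rintro ⟨F, n⟩
      obtain ⟨ζ, h1, h2, h3⟩ := exists_finite π hπ hr hC h hV hηV F
        (δ := 1 / ((n : ℝ) + 1)) (by positivity)
      exact ⟨ζ, h1, h2, h3⟩
    · rintro ⟨F, n⟩ z ⟨-, h2, -⟩
      calc ‖z‖ = ‖η + (z - η)‖ := by rw [add_sub_cancel]
        _ ≤ ‖η‖ + ‖z - η‖ := norm_add_le _ _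
        _ ≤ ‖η‖ + r := by linarith
  obtain ⟨ζ, hζ⟩ := hex
  refine ⟨ζ, (hζ (∅, 0)).1, (hζ (∅, 0)).2.1, Real.sqrt K, Real.sqrt_nonneg _, fun g => ?_⟩
  have h1 : ∀ n : ℕ, ‖π g ζ - ζ‖ ^ 2 ≤ K * ‖π g ξ - ξ‖ ^ 2 + 1 / ((n : ℝ) + 1) := fun n =>
    (hζ ({g}, n)).2.2 g (Finset.mem_singleton_self g)
  have h2 : ‖π g ζ - ζ‖ ^ 2 ≤ K * ‖π g ξ - ξ‖ ^ 2 := by
    refine le_of_forall_pos_le_add fun ε hε => ?_
    obtain ⟨n, hn⟩ := exists_nat_one_div_lt hε
    exact (h1 n).trans (by linarith)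
  refine le_of_sq_le_sq ?_ (by positivity)
  rw [mul_pow, Real.sq_sqrt hK0]
  exact h2

end Final

end Helper11.BC
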