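import Pool.Agent.Helper11.BC.Lip

/-! The Lipschitz lemma for sets of unitary operators on a complex Hilbert space. -/

set_option autoImplicit false

open scoped InnerProductSpace
open ContinuousLinearMap

namespace Helper11.BC

variable {H : Type*} [NormedAddCommGroup H] [InnerProductSpace ℂ H] [CompleteSpace H]

theorem lipschitz_complex {S : Set (H →L[ℂ] H)} (hone : 1 ∈ S)
    (hmul : ∀ a ∈ S, ∀ b ∈ S, a * b ∈ S)
    (hstar : ∀ a ∈ S, star a ∈ S) (huni : ∀ a ∈ S, star a * a = 1) {V : Set H}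
    (hVc : Convex ℝ V) (hVcl : IsClosed V) (hVi : ∀ a ∈ S, ∀ v ∈ V, a v ∈ V) {ξ η : H}
    (hη : η ∈ V)
    (h : ∀ ε : ℝ, 0 < ε → ∃ C : ℝ, ∀ a ∈ S, ‖a η - η‖ ^ 2 ≤ ε + C * ‖a ξ - ξ‖ ^ 2)
    {r : ℝ} (hr : 0 < r) :
    ∃ ζ ∈ V, ‖ζ - η‖ ≤ r ∧ ∃ K : ℝ, 0 ≤ K ∧ ∀ a ∈ S, ‖a ζ - ζ‖ ≤ K * ‖a ξ - ξ‖ := by
  let _ : InnerProductSpace ℝ H := InnerProductSpace.rclikeToReal ℂ H
  have huni' : ∀ a ∈ S, a * star a = 1 := fun a ha => by
    have := huni (star a) (hstar a ha)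
    rwa [star_star] at this
  let Gs : Subgroup (unitary (H →L[ℂ] H)) :=
    { carrier := {u | (u : H →L[ℂ] H) ∈ S}
      mul_mem' := fun {a b} ha hb => hmul _ ha _ hb
      one_mem' := hone
      inv_mem' := fun {a} ha => hstar _ ha }
  let π : Gs →* (H →L[ℝ] H) :=
    { toFun := fun u => ((u : unitary (H →L[ℂ] H)) : H →L[ℂ] H).restrictScalars ℝ
      map_one' := rfl
      map_mul' := fun a b => rfl }
  have hπa : ∀ (u : Gs) (v : H), π u v = ((u : unitary (H →L[ℂ] H)) : H →L[ℂ] H) v :=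
    fun _ _ => rfl
  have hπ : ∀ g v, ‖π g v‖ = ‖v‖ := by
    intro g v
    rw [hπa]
    have h1 : star ((g : unitary (H →L[ℂ] H)) : H →L[ℂ] H) *
        ((g : unitary (H →L[ℂ] H)) : H →L[ℂ] H) = 1 := (g : unitary (H →L[ℂ] H)).2.1
    have h3 : (star ((g : unitary (H →L[ℂ] H)) : H →L[ℂ] H))
        (((g : unitary (H →L[ℂ] H)) : H →L[ℂ] H) v) = v := by
      have := congrArg (fun T : H →L[ℂ] H => T v) h1
      exact this
    have h2 : ‖((g : unitary (H →L[ℂ] H)) : H →L[ℂ] H) v‖ ^ 2 = ‖v‖ ^ 2 := by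
      rw [@norm_sq_eq_re_inner ℂ, @norm_sq_eq_re_inner ℂ _ _ _ _ v]
      rw [← ContinuousLinearMap.adjoint_inner_left]
      have h4 : (adjoint ((g : unitary (H →L[ℂ] H)) : H →L[ℂ] H))
        (((g : unitary (H →L[ℂ] H)) : H →L[ℂ] H) v) = v := h3
      rw [h4]
    exact (sq_eq_sq₀ (norm_nonneg _) (norm_nonneg _)).mp h2
  obtain ⟨C0, hC0⟩ := h (r ^ 2 / 2) (by positivity)
  have hC : ∀ g : Gs, ‖π g η - η‖ ^ 2 ≤ r ^ 2 / 2 + (max C0 1) * ‖π g ξ - ξ‖ ^ 2 := by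
    intro g
    have h1 := hC0 _ g.2
    have h2 : C0 * ‖π g ξ - ξ‖ ^ 2 ≤ (max C0 1) * ‖π g ξ - ξ‖ ^ 2 :=
      mul_le_mul_of_nonneg_right (le_max_left _ _) (by positivity)
    exact h1.trans (by
      have : C0 * ‖((g : unitary (H →L[ℂ] H)) : H →L[ℂ] H) ξ - ξ‖ ^ 2 =
        C0 * ‖π g ξ - ξ‖ ^ 2 := rfl
      rw [this]
      linarith)
  obtain ⟨ζ, hζ, hζr, K, hK, hζK⟩ := lipschitz_real π hπ hr (C := max C0 1)
    (lt_of_lt_of_le one_pos (le_max_right _ _)) hC hVc hVcl (fun g => hVi _ g.2 _ hη)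
  refine ⟨ζ, hζ, hζr, K, hK, fun a ha => ?_⟩
  exact hζK ⟨⟨a, ⟨huni a ha, huni' a ha⟩⟩, ha⟩

end Helper11.BC
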